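import Pool.Agent.Y661.HE.Stm

/-!
# Form bounds from super- and subsolutions on boxes
-/

set_option autoImplicit false

namespace Pool.Agent.Y155.HE.FRM

open Finset
open Pool.Agent.H12R2.And (V ee Q mem_Q card_Q)
open Pool.Agent.Y661.HE (Lp S_LOW S_UPP)

theorem shift {d : ℕ} (S : Finset (V d)) (e : V d) (F : V d → V d → ℝ) :
    ∑ x ∈ S with x + e ∈ S, F x (x + e) = ∑ y ∈ S with y - e ∈ S, F (y - e) y := by
  refine sum_nbij' (fun x => x + e) (fun y => y - e) ?_ ?_ ?_ ?_ ?_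
  · intro x hx
    rw [mem_filter] at hx ⊢
    exact ⟨hx.2, by simpa using hx.1⟩
  · intro y hy
    rw [mem_filter] at hy ⊢
    exact ⟨hy.2, by simpa using hy.1⟩
  · intro x _
    simp
  · intro y _
    simp
  · intro x _
    simp

/-- one direction -/
theorem dir {d : ℕ} (S : Finset (V d)) (e : V d) (φ g : V d → ℝ) (hφ : ∀ x, 0 < φ x)
    (hg : ∀ x, x ∉ S → g x = 0) : ∑ x ∈ S, g x * (g (x + e) + g (x - e)) ≤
      ∑ x ∈ S, g x ^ 2 / φ x * (φ (x + e) + φ (x - e)) := by
  have h1 : ∀ x y : V d,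
      g x * g y ≤ 1 / 2 * (g x ^ 2 / φ x * φ y + g y ^ 2 / φ y * φ x) := by
    intro x y
    have hx := hφ x
    have hy := hφ y
    have h2 : 0 ≤ (g x * φ y - g y * φ x) ^ 2 / (φ x * φ y) := by positivity
    have h3 : (g x * φ y - g y * φ x) ^ 2 / (φ x * φ y) =
        g x ^ 2 / φ x * φ y + g y ^ 2 / φ y * φ x - 2 * (g x * g y) := by
      field_simp
      ring
    linarith
  have a1 : ∑ x ∈ S, g x * g (x + e) = ∑ x ∈ S with x + e ∈ S, g x * g (x + e) := by
    rw [sum_filter]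
    refine sum_congr rfl fun x _ => ?_
    split_ifs with h
    · rfl
    · rw [hg _ h, mul_zero]
  have a2 : ∑ x ∈ S, g x * g (x - e) = ∑ x ∈ S with x - e ∈ S, g x * g (x - e) := by
    rw [sum_filter]
    refine sum_congr rfl fun x _ => ?_
    split_ifs with h
    · rfl
    · rw [hg _ h, mul_zero]
  have b2 : ∑ x ∈ S with x - e ∈ S, g x * g (x - e) = ∑ x ∈ S with x + e ∈ S, g x * g (x + e) := by
    rw [shift S e fun x y => g x * g y]
    exact sum_congr rfl fun x _ => mul_comm _ _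
  have b1 : ∑ x ∈ S with x + e ∈ S, g x * g (x + e) ≤
      1 / 2 * (∑ x ∈ S with x + e ∈ S, g x ^ 2 / φ x * φ (x + e) +
        ∑ x ∈ S with x - e ∈ S, g x ^ 2 / φ x * φ (x - e)) := by
    have h2 : ∑ x ∈ S with x - e ∈ S, g x ^ 2 / φ x * φ (x - e) =
        ∑ x ∈ S with x + e ∈ S, g (x + e) ^ 2 / φ (x + e) * φ x :=
      (shift S e fun x y => g y ^ 2 / φ y * φ x).symm
    rw [h2, ← sum_add_distrib, mul_sum]
    exact sum_le_sum fun x _ => h1 x (x + e)
  have c1 : ∑ x ∈ S with x + e ∈ S, g x ^ 2 / φ x * φ (x + e) ≤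
      ∑ x ∈ S, g x ^ 2 / φ x * φ (x + e) :=
    sum_le_sum_of_subset_of_nonneg (filter_subset _ _) fun x _ _ => by
      have hx := hφ x
      have hy := hφ (x + e)
      positivity
  have c2 : ∑ x ∈ S with x - e ∈ S, g x ^ 2 / φ x * φ (x - e) ≤
      ∑ x ∈ S, g x ^ 2 / φ x * φ (x - e) :=
    sum_le_sum_of_subset_of_nonneg (filter_subset _ _) fun x _ _ => by
      have hx := hφ x
      have hy := hφ (x - e)
      positivity
  simp_rw [mul_add, sum_add_distrib]
  rw [a1, a2, b2]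
  linarith

theorem low : S_LOW := by
  intro d a R φ W E hφ h g hg
  have e1 : ∑ x ∈ Q a R, g x * (Lp g x + W x * g x) = ∑ x ∈ Q a R, (2 * d + W x) * g x ^ 2 -
      ∑ i : Fin d, ∑ x ∈ Q a R, g x * (g (x + ee i) + g (x - ee i)) := by
    rw [sum_comm, ← sum_sub_distrib]
    refine sum_congr rfl fun x _ => ?_
    rw [Lp, ← mul_sum]
    ring
  have e2 : ∑ x ∈ Q a R, g x ^ 2 / φ x * (Lp φ x + W x * φ x) =
      ∑ x ∈ Q a R, (2 * d + W x) * g x ^ 2 -
      ∑ i : Fin d, ∑ x ∈ Q a R, g x ^ 2 / φ x * (φ (x + ee i) + φ (x - ee i)) := by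
    rw [sum_comm, ← sum_sub_distrib]
    refine sum_congr rfl fun x _ => ?_
    rw [Lp, ← mul_sum]
    have := (hφ x).ne'
    field_simp
    ring
  have e3 : ∑ i : Fin d, ∑ x ∈ Q a R, g x * (g (x + ee i) + g (x - ee i)) ≤
      ∑ i : Fin d, ∑ x ∈ Q a R, g x ^ 2 / φ x * (φ (x + ee i) + φ (x - ee i)) :=
    sum_le_sum fun i _ => dir (Q a R) (ee i) φ g hφ hg
  have e4 : E * ∑ x ∈ Q a R, g x ^ 2 ≤ ∑ x ∈ Q a R, g x ^ 2 / φ x * (Lp φ x + W x * φ x) := by
    rw [mul_sum]
    refine sum_le_sum fun x hx => ?_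
    have h1 := h x hx
    have h2 := hφ x
    have h3 : E * g x ^ 2 = g x ^ 2 / φ x * (E * φ x) := by field_simp
    rw [h3]
    exact mul_le_mul_of_nonneg_left h1 (by positivity)
  linarith

/-! ### the test function -/

theorem face {d : ℕ} (a : V d) (R : ℕ) (i : Fin d) (s : ℤ) (hs : s = 1 ∨ s = -1) :
    (2 * R + 1) * ((Q a R).filter fun x => x + Pi.single i s ∉ Q a R).card ≤ (Q a R).card := by
  classical
  have hface : ∀ x ∈ (Q a R).filter fun x => x + Pi.single i s ∉ Q a R,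
      (∀ j, |x j - a j| ≤ R) ∧ x i = a i + s * R := by
    intro x hx
    rw [mem_filter, mem_Q, mem_Q] at hx
    refine ⟨hx.1, ?_⟩
    have h1 := hx.2
    push Not at h1
    obtain ⟨j, hj⟩ := h1
    have hji : j = i := by
      by_contra hne
      rw [Pi.add_apply, Pi.single_eq_of_ne hne, add_zero] at hj
      exact absurd (hx.1 j) (not_le.2 hj)
    subst hji
    rw [Pi.add_apply, Pi.single_eq_same] at hj
    have h2 := abs_le.1 (hx.1 j)
    rcases hs with rfl | rfl
    · rcases lt_abs.1 hj with h3 | h3 <;> omega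
    · rcases lt_abs.1 hj with h3 | h3 <;> omega
  rw [mul_comm, ← card_range (2 * R + 1), ← card_product]
  refine card_le_card_of_injOn (fun p : V d × ℕ => p.1 - Pi.single i (s * (p.2 : ℤ))) ?_ ?_
  · rintro ⟨x, k⟩ hp
    rw [mem_coe, mem_product, mem_range] at hp
    obtain ⟨h1, h2⟩ := hface x hp.1
    have hk : k < 2 * R + 1 := hp.2
    rw [mem_coe, mem_Q]
    intro j
    by_cases hj : j = i
    · subst hj
      simp only [Pi.sub_apply, Pi.single_eq_same]
      rw [h2, abs_le]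
      rcases hs with rfl | rfl
      · constructor <;> omega
      · constructor <;> omega
    · simp only [Pi.sub_apply, Pi.single_eq_of_ne hj, sub_zero]
      exact h1 j
  · rintro ⟨x, k⟩ hp ⟨x', k'⟩ hp' heq
    rw [mem_coe, mem_product, mem_range] at hp hp'
    obtain ⟨-, h2⟩ := hface x hp.1
    obtain ⟨-, h2'⟩ := hface x' hp'.1
    simp only at heq
    have h3 := congrFun heq i
    simp only [Pi.sub_apply, Pi.single_eq_same] at h3
    have hk : k = k' := by
      rw [h2, h2'] at h3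
      rcases hs with rfl | rfl <;> omega
    subst hk
    simpa using heq

theorem face_le {d : ℕ} (a : V d) (R : ℕ) (i : Fin d) (s : ℤ) (hs : s = 1 ∨ s = -1) (T : ℝ)
    (hT : ((Q a R).card : ℝ) ≤ 4 * T) :
    (((Q a R).filter fun x => x + Pi.single i s ∉ Q a R).card : ℝ) ≤ 4 * T / (2 * R + 1) := by
  rw [le_div_iff₀ (by positivity)]
  have h1 : (((2 * R + 1) * ((Q a R).filter fun x => x + Pi.single i s ∉ Q a R).card : ℕ) : ℝ) ≤
      ((Q a R).card : ℝ) := by exact_mod_cast face a R i s hs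
  push_cast at h1
  linarith

theorem upp : S_UPP := by
  intro d hd a R φ W E ρ hρ hφ h g hg hg0
  set T := ∑ x ∈ Q a R, g x ^ 2 with hT
  have hcard : ((Q a R).card : ℝ) ≤ 4 * T := by
    rw [hT, mul_sum, card_eq_sum_ones]
    push_cast
    refine sum_le_sum fun x hx => ?_
    rw [hg x hx]
    have := (hφ x).1
    nlinarith
  -- boundary terms
  let β : V d → ℝ := fun y => if y ∈ Q a R then 0 else φ y
  have hgβ : ∀ y, g y = φ y - β y := by
    intro y
    by_cases hy : y ∈ Q a R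
    · simp only [β, if_pos hy, sub_zero]
      exact hg y hy
    · simp only [β, if_neg hy, sub_self]
      exact hg0 y hy
  have e1 : ∑ x ∈ Q a R, g x * (Lp g x + W x * g x) =
      ∑ x ∈ Q a R, φ x * (Lp φ x + W x * φ x) +
      ∑ i : Fin d, ∑ x ∈ Q a R, φ x * (β (x + ee i) + β (x - ee i)) := by
    rw [sum_comm, ← sum_add_distrib]
    refine sum_congr rfl fun x hx => ?_
    rw [Lp, Lp, hg x hx, ← mul_sum]
    have : ∑ i : Fin d, (g (x + ee i) + g (x - ee i)) = ∑ i : Fin d, (φ (x + ee i) + φ (x - ee i)) -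
        ∑ i : Fin d, (β (x + ee i) + β (x - ee i)) := by
      rw [← sum_sub_distrib]
      refine sum_congr rfl fun i _ => ?_
      rw [hgβ, hgβ (x - ee i)]
      ring
    rw [this]
    ring
  have e2 : ∑ x ∈ Q a R, φ x * (Lp φ x + W x * φ x) ≤ (E + 2 * ρ) * T := by
    rw [hT, mul_sum]
    refine sum_le_sum fun x hx => ?_
    rw [hg x hx]
    have h1 := (abs_le.1 (h x hx)).2
    have h2 := (hφ x).1
    have h3 : Lp φ x + W x * φ x ≤ E * φ x + ρ := by linarith
    have h4 : φ x * (Lp φ x + W x * φ x) ≤ φ x * (E * φ x + ρ) :=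
      mul_le_mul_of_nonneg_left h3 (by linarith)
    have h5 : φ x * ρ ≤ 2 * ρ * φ x ^ 2 := by
      have : 0 ≤ ρ * φ x * (2 * φ x - 1) :=
        mul_nonneg (mul_nonneg hρ (by linarith)) (by linarith)
      nlinarith
    nlinarith
  have e3 : ∀ i : Fin d, ∀ s : ℤ, (s = 1 ∨ s = -1) →
      ∑ x ∈ Q a R, φ x * β (x + Pi.single i s) ≤ 9 / 4 * (4 * T / (2 * R + 1)) := by
    intro i s hs
    have h1 := face_le a R i s hs T hcard
    have h2 : ∑ x ∈ Q a R, φ x * β (x + Pi.single i s) ≤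
        ∑ x ∈ Q a R, if x + Pi.single i s ∉ Q a R then (9 / 4 : ℝ) else 0 := by
      refine sum_le_sum fun x _ => ?_
      by_cases hx : x + Pi.single i s ∈ Q a R
      · simp [β, hx]
      · simp only [β, if_neg hx, if_pos hx]
        have h3 := hφ x
        have h4 := hφ (x + Pi.single i s)
        nlinarith [h3.1, h3.2, h4.1, h4.2]
    rw [← sum_filter, sum_const, nsmul_eq_mul] at h2
    linarith
  have e4 : ∀ i : Fin d, ∑ x ∈ Q a R, φ x * (β (x + ee i) + β (x - ee i)) ≤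
      18 / (2 * R + 1) * T := by
    intro i
    have h1 := e3 i 1 (Or.inl rfl)
    have h2 := e3 i (-1) (Or.inr rfl)
    have h3 : ∀ x : V d, x + Pi.single i (-1) = x - ee i := by
      intro x
      rw [Pi.single_neg, ← sub_eq_add_neg]
    simp only [h3] at h2
    simp_rw [mul_add, sum_add_distrib]
    have h4 : 18 / (2 * (R : ℝ) + 1) * T = 9 / 4 * (4 * T / (2 * R + 1)) +
        9 / 4 * (4 * T / (2 * R + 1)) := by ring
    rw [h4]
    exact add_le_add h1 h2
  have e5 : ∑ i : Fin d, ∑ x ∈ Q a R, φ x * (β (x + ee i) + β (x - ee i)) ≤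
      18 * d / (2 * R + 1) * T := by
    refine (sum_le_sum fun i _ => e4 i).trans (le_of_eq ?_)
    rw [sum_const, card_univ, Fintype.card_fin, nsmul_eq_mul]
    ring
  rw [e1]
  have e6 : (E + 2 * ρ + 18 * d / (2 * R + 1)) * T = (E + 2 * ρ) * T + 18 * d / (2 * R + 1) * T := by
    ring
  rw [e6]
  exact add_le_add e2 e5

end Pool.Agent.Y155.HE.FRM
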